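import Pool.Agent.K3h26.R5.Stm

/-!
# Brick TO: tilings of `ℝ^3` by translates of the truncated octahedron
-/

set_option autoImplicit false

open Filter Topology

namespace Pool.Agent.K3h55.R5

open Pool.Agent.K3h26.R5

/-- the hypotheses: separation and covering -/
structure Hy (U : Set (Fin 3 → ℝ)) : Prop where
  zero : (0 : Fin 3 → ℝ) ∈ U
  sep : ∀ u ∈ U, ∀ u' ∈ U, u ≠ u' → 3 ≤ ∑ i, |u i - u' i| ∨ ∃ i, 2 ≤ |u i - u' i|
  cov : ∀ x : Fin 3 → ℝ, ∃ u ∈ U, ∑ i, |x i - u i| ≤ 3 / 2 ∧ ∀ i, |x i - u i| ≤ 1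

variable {U : Set (Fin 3 → ℝ)}

theorem Hy.eq_of (h : Hy U) {u u' : Fin 3 → ℝ} (hu : u ∈ U) (hu' : u' ∈ U)
    (h1 : ∑ i, |u i - u' i| < 3) (h2 : ∀ i, |u i - u' i| < 2) : u = u' := by
  by_contra hne
  rcases h.sep u hu u' hu' hne with h3 | ⟨i, h3⟩
  · linarith
  · linarith [h2 i]

/-- symmetries -/
theorem Hy.sym (h : Hy U) (e : Fin 3 ≃ Fin 3) (σ : Fin 3 → ℝ) (hσ : ∀ i, |σ i| = 1) :
    Hy {x | (fun i => σ i * x (e i)) ∈ U} := by
  have hs : ∀ i, σ i * σ i = 1 := fun i => by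
    rw [← abs_mul_abs_self, hσ, one_mul]
  have hab : ∀ (x x' : Fin 3 → ℝ) (i : Fin 3), |σ i * x (e i) - σ i * x' (e i)| =
      |x (e i) - x' (e i)| := fun x x' i => by
    rw [← mul_sub, abs_mul, hσ, one_mul]
  refine ⟨?_, ?_, ?_⟩
  · show (fun i => σ i * (0 : Fin 3 → ℝ) (e i)) ∈ U
    have : (fun i => σ i * (0 : Fin 3 → ℝ) (e i)) = 0 := by
      funext i
      rw [Pi.zero_apply, mul_zero]
      rfl
    rw [this]
    exact h.zero
  · intro x hx x' hx' hne
    have hne' : (fun i => σ i * x (e i)) ≠ fun i => σ i * x' (e i) := by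
      intro h1
      apply hne
      funext j
      have h2 := congrFun h1 (e.symm j)
      simp only [Equiv.apply_symm_apply] at h2
      have h3 := congrArg (fun z => σ (e.symm j) * z) h2
      simp only [← mul_assoc, hs, one_mul] at h3
      exact h3
    rcases h.sep _ hx _ hx' hne' with h1 | ⟨i, h1⟩
    · left
      simp only [hab] at h1
      rwa [Equiv.sum_comp e (fun j => |x j - x' j|)] at h1
    · right
      simp only [hab] at h1
      exact ⟨e i, h1⟩
  · intro x
    obtain ⟨u, hu, h1, h2⟩ := h.cov (fun i => σ i * x (e i))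
    have hv : ∀ i, σ i * (fun j => σ (e.symm j) * u (e.symm j)) (e i) = u i := by
      intro i
      simp only [Equiv.symm_apply_apply]
      rw [← mul_assoc, hs, one_mul]
    refine ⟨fun j => σ (e.symm j) * u (e.symm j), ?_, ?_, ?_⟩
    · show (fun i => σ i * (fun j => σ (e.symm j) * u (e.symm j)) (e i)) ∈ U
      have : (fun i => σ i * (fun j => σ (e.symm j) * u (e.symm j)) (e i)) = u := funext hv
      rw [this]
      exact hu
    · rw [← Equiv.sum_comp e (fun j => |x j - σ (e.symm j) * u (e.symm j)|)]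
      refine le_trans (le_of_eq ?_) h1
      refine Finset.sum_congr rfl fun i _ => ?_
      have h3 := hab x (fun j => σ (e.symm j) * u (e.symm j)) i
      rw [hv] at h3
      exact h3.symm
    · intro j
      obtain ⟨i, rfl⟩ := e.surjective j
      refine le_trans (le_of_eq ?_) (h2 i)
      have h3 := hab x (fun j => σ (e.symm j) * u (e.symm j)) i
      rw [hv] at h3
      exact h3.symm

/-- translations -/
theorem Hy.shift (h : Hy U) {u : Fin 3 → ℝ} (hu : u ∈ U) : Hy {x | x + u ∈ U} := by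
  refine ⟨?_, ?_, ?_⟩
  · show 0 + u ∈ U
    rw [zero_add]
    exact hu
  · intro x hx x' hx' hne
    have h1 := h.sep (x + u) hx (x' + u) hx' fun h2 => hne (add_right_cancel h2)
    simpa only [Pi.add_apply, add_sub_add_right_eq_sub] using h1
  · intro x
    obtain ⟨w, hw, h1, h2⟩ := h.cov (x + u)
    refine ⟨w - u, ?_, ?_, ?_⟩
    · show w - u + u ∈ U
      rw [sub_add_cancel]
      exact hw
    · refine le_trans (le_of_eq ?_) h1
      refine Finset.sum_congr rfl fun i _ => ?_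
      rw [Pi.sub_apply, Pi.add_apply]
      congr 1
      ring
    · intro i
      refine le_trans (le_of_eq ?_) (h2 i)
      rw [Pi.sub_apply, Pi.add_apply]
      congr 1
      ring

/-- finitely many points in a box -/
theorem Hy.finite (h : Hy U) : {u | u ∈ U ∧ ∀ i, |u i| ≤ 3}.Finite := by
  have hf : (Set.univ.pi fun _ : Fin 3 => Set.Icc (-3 : ℤ) 3).Finite :=
    Set.Finite.pi fun _ => Set.finite_Icc _ _
  refine Set.Finite.of_injOn (f := fun u : Fin 3 → ℝ => fun i => ⌊u i⌋) (t := Set.univ.pi fun _ : Fin 3 => Set.Icc (-3 : ℤ) 3) ?_ ?_ hf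
  · rintro u ⟨-, hu⟩
    rw [Set.mem_univ_pi]
    intro i
    have h1 := abs_le.1 (hu i)
    constructor
    · rw [Int.le_floor]
      push_cast
      exact h1.1
    · have h2 : (⌊u i⌋ : ℝ) ≤ 3 := (Int.floor_le (u i)).trans h1.2
      exact_mod_cast h2
  · rintro u ⟨hu, -⟩ u' ⟨hu', -⟩ huu
    have h1 : ∀ i, |u i - u' i| < 1 := fun i => Int.abs_sub_lt_one_of_floor_eq_floor (congrFun huu i)
    refine h.eq_of hu hu' ?_ fun i => (h1 i).trans (by norm_num)
    rw [Fin.sum_univ_three]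
    linarith [h1 0, h1 1, h1 2]

/-- a neighbour at a boundary point -/
theorem Hy.nb (h : Hy U) (p : Fin 3 → ℝ) (hp : ∀ i, |p i| ≤ 1)
    (hb : ∀ δ : ℝ, 0 < δ → ¬ (∑ i, |(1 + δ) * p i| ≤ 3 / 2 ∧ ∀ i, |(1 + δ) * p i| ≤ 1)) :
    ∃ u ∈ U, u ≠ 0 ∧ ∑ i, |p i - u i| ≤ 3 / 2 ∧ ∀ i, |p i - u i| ≤ 1 := by
  have hd : ∀ n : ℕ, (0 : ℝ) < 1 / ((n : ℝ) + 1) := fun n => by positivity
  have hd1 : ∀ n : ℕ, 1 / ((n : ℝ) + 1) ≤ (1 : ℝ) := fun n => by
    rw [div_le_one (by positivity)]
    linarith [(Nat.cast_nonneg n : (0 : ℝ) ≤ n)]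
  choose v hv h1 h2 using fun n : ℕ => h.cov (fun i => (1 + 1 / ((n : ℝ) + 1)) * p i)
  have hbox : ∀ n, v n ∈ {u | u ∈ U ∧ ∀ i, |u i| ≤ 3} := by
    intro n
    refine ⟨hv n, fun i => ?_⟩
    have e1 := h2 n i
    have e2 : |(1 + 1 / ((n : ℝ) + 1)) * p i| ≤ 2 := by
      rw [abs_mul, abs_of_pos (by linarith [hd n])]
      have := mul_le_mul (show 1 + 1 / ((n : ℝ) + 1) ≤ 2 by linarith [hd1 n]) (hp i)
        (abs_nonneg _) (by norm_num)
      linarith
    have e3 : |v n i| ≤ |(1 + 1 / ((n : ℝ) + 1)) * p i| +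
        |(1 + 1 / ((n : ℝ) + 1)) * p i - v n i| := by
      have := abs_sub_abs_le_abs_sub (v n i) ((1 + 1 / ((n : ℝ) + 1)) * p i)
      rw [abs_sub_comm] at this
      linarith
    linarith
  have hfin : Finite {u | u ∈ U ∧ ∀ i, |u i| ≤ 3} := h.finite
  obtain ⟨⟨u, hu⟩, hinf⟩ := Finite.exists_infinite_fiber
    (fun n : ℕ => (⟨v n, hbox n⟩ : {u | u ∈ U ∧ ∀ i, |u i| ≤ 3}))
  have hinf' : {n : ℕ | v n = u}.Infinite := by
    rw [← Set.infinite_coe_iff]
    refine hinf.of_injective (fun x => ⟨x.1, ?_⟩) ?_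
    · have := x.2
      exact congrArg Subtype.val this
    · intro x y hxy
      apply Subtype.ext
      exact congrArg (fun z : {n : ℕ | v n = u} => z.1) hxy
  have hfr : ∃ᶠ n in atTop, v n = u := Nat.frequently_atTop_iff_infinite.2 hinf'
  have ht : Tendsto (fun n : ℕ => (fun i => (1 + 1 / ((n : ℝ) + 1)) * p i - u i : Fin 3 → ℝ)) atTop
      (𝓝 (fun i => p i - u i)) := by
    rw [tendsto_pi_nhds]
    intro i
    have e1 : Tendsto (fun n : ℕ => (1 + 1 / ((n : ℝ) + 1)) * p i - u i) atTop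
        (𝓝 ((1 + 0) * p i - u i)) :=
      ((tendsto_const_nhds.add tendsto_one_div_add_atTop_nhds_zero_nat).mul_const _).sub_const _
    simpa using e1
  have hcl : IsClosed ({x : Fin 3 → ℝ | ∑ i, |x i| ≤ 3 / 2} ∩ {x | ∀ i, |x i| ≤ 1}) := by
    apply IsClosed.inter
    · exact isClosed_le (by fun_prop) continuous_const
    · have hI : {x : Fin 3 → ℝ | ∀ i, |x i| ≤ 1} = ⋂ i, {x | |x i| ≤ 1} := by
        ext x
        simp
      rw [hI]
      exact isClosed_iInter fun i => isClosed_le (by fun_prop) continuous_const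
  have hmem := hcl.mem_of_frequently_of_tendsto (hfr.mono fun n hn => by
    show ∑ i, |(1 + 1 / ((n : ℝ) + 1)) * p i - u i| ≤ 3 / 2 ∧
      ∀ i, |(1 + 1 / ((n : ℝ) + 1)) * p i - u i| ≤ 1
    rw [← hn]
    exact ⟨h1 n, h2 n⟩) ht
  refine ⟨u, hu.1, ?_, hmem.1, hmem.2⟩
  rintro rfl
  obtain ⟨n, hn⟩ := hfr.exists
  refine hb _ (hd n) ⟨?_, fun i => ?_⟩
  · have := h1 n
    simpa only [hn, Pi.zero_apply, sub_zero] using this
  · have := h2 n i
    simpa only [hn, Pi.zero_apply, sub_zero] using this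

/-- the square face -/
theorem Hy.square (h : Hy U) : (![2, 0, 0] : Fin 3 → ℝ) ∈ U := by
  have key : ∀ a b : ℝ, |a| + |b| < 1 / 2 → ∃ u ∈ U, u 0 = 2 ∧ |a - u 1| + |b - u 2| ≤ 1 / 2 := by
    intro a b hab
    have ha := abs_nonneg a
    have hb := abs_nonneg b
    obtain ⟨u, hu, hu0, h1, h2⟩ := h.nb ![1, a, b] (fun i => by
        fin_cases i
        · simp
        · show |a| ≤ 1
          linarith
        · show |b| ≤ 1
          linarith) (fun δ hδ hc => by
        have h3 := hc.2 0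
        have h4 : |(1 + δ) * (![1, a, b] : Fin 3 → ℝ) 0| = 1 + δ := by
          show |(1 + δ) * 1| = 1 + δ
          rw [mul_one, abs_of_pos (by linarith)]
        rw [h4] at h3
        linarith)
    rw [Fin.sum_univ_three] at h1
    have g0 := h2 0
    have g1 := h2 1
    have g2 := h2 2
    simp only [Matrix.cons_val_zero, Matrix.cons_val_one, Matrix.cons_val] at h1 g0 g1 g2
    have k0 : |u 0| ≤ 1 + |1 - u 0| := by
      have := abs_sub_abs_le_abs_sub (u 0) 1
      rw [abs_one, abs_sub_comm] at this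
      linarith
    have k1 : |u 1| ≤ |a| + |a - u 1| := by
      have := abs_sub_abs_le_abs_sub (u 1) a
      rw [abs_sub_comm] at this
      linarith
    have k2 : |u 2| ≤ |b| + |b - u 2| := by
      have := abs_sub_abs_le_abs_sub (u 2) b
      rw [abs_sub_comm] at this
      linarith
    have hs := h.sep u hu 0 h.zero hu0
    simp only [Pi.zero_apply, sub_zero, Fin.sum_univ_three] at hs
    have hu2 : 2 ≤ |u 0| := by
      rcases hs with hs | ⟨i, hs⟩
      · linarith
      · fin_cases i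
        · exact hs
        · have : 2 ≤ |u 1| := hs
          linarith
        · have : 2 ≤ |u 2| := hs
          linarith
    have g0' := abs_le.1 g0
    have hu0' : 0 ≤ u 0 := by linarith
    rw [abs_of_nonneg hu0'] at hu2
    have e : u 0 = 2 := by linarith
    refine ⟨u, hu, e, ?_⟩
    rw [e] at h1
    have : |(1 : ℝ) - 2| = 1 := by norm_num
    rw [this] at h1
    linarith
  have hbd : ∀ (a b : ℝ) (u : Fin 3 → ℝ), |a| + |b| < 1 / 2 → |a - u 1| + |b - u 2| ≤ 1 / 2 →
      |u 1| + |u 2| < 1 := by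
    intro a b u h1 h2
    have k1 : |u 1| ≤ |a| + |a - u 1| := by
      have := abs_sub_abs_le_abs_sub (u 1) a
      rw [abs_sub_comm] at this
      linarith
    have k2 : |u 2| ≤ |b| + |b - u 2| := by
      have := abs_sub_abs_le_abs_sub (u 2) b
      rw [abs_sub_comm] at this
      linarith
    linarith
  obtain ⟨u, hu, hu0, hu1⟩ := key 0 0 (by norm_num)
  have hub := hbd 0 0 u (by norm_num) hu1
  have huniq : ∀ a b : ℝ, |a| + |b| < 1 / 2 → |a - u 1| + |b - u 2| ≤ 1 / 2 := by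
    intro a b hab
    obtain ⟨w, hw, hw0, hw1⟩ := key a b hab
    have hwb := hbd a b w hab hw1
    have e1 : |u 1 - w 1| ≤ |u 1| + |w 1| := abs_sub _ _
    have e2 : |u 2 - w 2| ≤ |u 2| + |w 2| := abs_sub _ _
    have e0 : |u 0 - w 0| = 0 := by rw [hu0, hw0, sub_self, abs_zero]
    have n1 := abs_nonneg (u 1)
    have n2 := abs_nonneg (u 2)
    have n3 := abs_nonneg (w 1)
    have n4 := abs_nonneg (w 2)
    have : u = w := by
      refine h.eq_of hu hw ?_ fun i => ?_
      · rw [Fin.sum_univ_three]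
        linarith
      · fin_cases i
        · show |u 0 - w 0| < 2
          linarith
        · show |u 1 - w 1| < 2
          linarith
        · show |u 2 - w 2| < 2
          linarith
    rw [this]
    exact hw1
  have hz : |u 1| + |u 2| = 0 := by
    by_contra hne
    have n1 := abs_nonneg (u 1)
    have n2 := abs_nonneg (u 2)
    have hpos : 0 < |u 1| + |u 2| := lt_of_le_of_ne (by linarith) (Ne.symm hne)
    obtain ⟨t, ht⟩ : ∃ t : ℝ, t = 1 / 2 - (|u 1| + |u 2|) / 2 := ⟨_, rfl⟩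
    have ht0 : 0 ≤ t := by linarith
    have ht1 : t < 1 / 2 := by linarith
    have f1 := huniq t 0 (by rw [abs_of_nonneg ht0, abs_zero]; linarith)
    have f2 := huniq (-t) 0 (by rw [abs_neg, abs_of_nonneg ht0, abs_zero]; linarith)
    rw [zero_sub, abs_neg] at f1 f2
    have f3 : t + |u 1| ≤ max |t - u 1| |-t - u 1| := by
      rcases abs_cases (u 1) with ⟨h1, h2⟩ | ⟨h1, h2⟩
      · refine le_trans ?_ (le_max_right _ _)
        rw [h1]
        have := neg_abs_le (-t - u 1)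
        linarith
      · refine le_trans ?_ (le_max_left _ _)
        rw [h1]
        have := le_abs_self (t - u 1)
        linarith
    rcases le_max_iff.1 f3 with f4 | f4 <;> linarith
  have n1 := abs_nonneg (u 1)
  have n2 := abs_nonneg (u 2)
  have z1 : u 1 = 0 := abs_eq_zero.1 (by linarith)
  have z2 : u 2 = 0 := abs_eq_zero.1 (by linarith)
  have : u = ![2, 0, 0] := by
    funext i
    fin_cases i
    · exact hu0
    · exact z1
    · exact z2
  rw [← this]
  exact hu

theorem abs_aux {p r : ℝ} (hp : 0 < p) (h : p + |r| ≤ |p - r|) : r ≤ 0 := by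
  by_contra hr
  rw [not_le] at hr
  rw [abs_of_pos hr] at h
  have : |p - r| < p + r := by
    rw [abs_lt]
    constructor <;> linarith
  linarith

theorem sum_aux {x y z c : ℝ} (hx : |x| ≤ c) (hy : |y| ≤ c) (hz : |z| ≤ c) (h : x + y + z = 0) :
    |x| + |y| + |z| ≤ 2 * c := by
  have h1 := abs_le.1 hx
  have h2 := abs_le.1 hy
  have h3 := abs_le.1 hz
  rcases abs_cases x with ⟨a1, a2⟩ | ⟨a1, a2⟩ <;> rcases abs_cases y with ⟨b1, b2⟩ | ⟨b1, b2⟩ <;>
    rcases abs_cases z with ⟨c1, c2⟩ | ⟨c1, c2⟩ <;> rw [a1, b1, c1] <;> linarith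

/-- the hexagonal face -/
theorem Hy.hexa (h : Hy U) : (fun _ => 1 : Fin 3 → ℝ) ∈ U := by
  have key : ∀ a b c : ℝ, 0 < a → a < 1 → 0 < b → b < 1 → 0 < c → c < 1 → a + b + c = 3 / 2 →
      ∃ u ∈ U, u 0 + u 1 + u 2 = 3 ∧ (-1 ≤ a - u 0 ∧ a - u 0 ≤ 0) ∧
        (-1 ≤ b - u 1 ∧ b - u 1 ≤ 0) ∧ (-1 ≤ c - u 2 ∧ c - u 2 ≤ 0) := by
    intro a b c ha ha1 hb hb1 hc hc1 hs
    obtain ⟨u, hu, hu0, h1, h2⟩ := h.nb ![a, b, c] (fun i => by
        fin_cases i
        · show |a| ≤ 1
          rw [abs_of_pos ha]; exact ha1.le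
        · show |b| ≤ 1
          rw [abs_of_pos hb]; exact hb1.le
        · show |c| ≤ 1
          rw [abs_of_pos hc]; exact hc1.le) (fun δ hδ hcc => by
        have h3 := hcc.1
        rw [Fin.sum_univ_three] at h3
        simp only [Matrix.cons_val_zero, Matrix.cons_val_one, Matrix.cons_val] at h3
        rw [abs_of_pos (by positivity), abs_of_pos (by positivity), abs_of_pos (by positivity)] at h3
        nlinarith)
    rw [Fin.sum_univ_three] at h1
    have g0 := h2 0
    have g1 := h2 1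
    have g2 := h2 2
    simp only [Matrix.cons_val_zero, Matrix.cons_val_one, Matrix.cons_val] at h1 g0 g1 g2
    have hk : ∀ p x : ℝ, 0 < p → |x| ≤ p + |p - x| := by
      intro p x hp
      have := abs_sub_abs_le_abs_sub x p
      rw [abs_sub_comm, abs_of_pos hp] at this
      linarith
    have k0 := hk a (u 0) ha
    have k1 := hk b (u 1) hb
    have k2 := hk c (u 2) hc
    have hsep := h.sep u hu 0 h.zero hu0
    simp only [Pi.zero_apply, sub_zero, Fin.sum_univ_three] at hsep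
    have h3 : 3 ≤ |u 0| + |u 1| + |u 2| := by
      rcases hsep with hs' | ⟨i, hs'⟩
      · exact hs'
      · exfalso
        fin_cases i
        · have : 2 ≤ |u 0| := hs'
          linarith
        · have : 2 ≤ |u 1| := hs'
          linarith
        · have : 2 ≤ |u 2| := hs'
          linarith
    have hr : ∀ p x : ℝ, 0 < p → p + |p - x| ≤ |x| → p - x ≤ 0 := by
      intro p x hp hx
      apply abs_aux hp
      rwa [sub_sub_cancel]
    have r0 : a - u 0 ≤ 0 := hr a (u 0) ha (by linarith)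
    have r1 : b - u 1 ≤ 0 := hr b (u 1) hb (by linarith)
    have r2 : c - u 2 ≤ 0 := hr c (u 2) hc (by linarith)
    rw [abs_of_nonpos r0, abs_of_nonpos r1, abs_of_nonpos r2] at h1
    rw [abs_of_nonneg (by linarith : 0 ≤ u 0), abs_of_nonneg (by linarith : 0 ≤ u 1),
      abs_of_nonneg (by linarith : 0 ≤ u 2)] at h3
    refine ⟨u, hu, by linarith, ⟨(abs_le.1 g0).1, r0⟩, ⟨(abs_le.1 g1).1, r1⟩,
      ⟨(abs_le.1 g2).1, r2⟩⟩
  obtain ⟨u, hu, hus, hu0, hu1, hu2⟩ := key (1 / 2) (1 / 2) (1 / 2) (by norm_num) (by norm_num)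
    (by norm_num) (by norm_num) (by norm_num) (by norm_num) (by norm_num)
  have huniq : ∀ a b c : ℝ, 0 < a → a < 1 → 0 < b → b < 1 → 0 < c → c < 1 → a + b + c = 3 / 2 →
      a ≤ u 0 ∧ b ≤ u 1 ∧ c ≤ u 2 := by
    intro a b c ha ha1 hb hb1 hc hc1 hs
    obtain ⟨w, hw, hws, hw0, hw1, hw2⟩ := key a b c ha ha1 hb hb1 hc hc1 hs
    obtain ⟨m, hm, hm1⟩ : ∃ m : ℝ, (|1 / 2 - a| ≤ m ∧ |1 / 2 - b| ≤ m ∧ |1 / 2 - c| ≤ m) ∧
        m < 1 / 2 := by
      refine ⟨max |1 / 2 - a| (max |1 / 2 - b| |1 / 2 - c|), ⟨le_max_left _ _,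
        (le_max_left _ _).trans (le_max_right _ _), (le_max_right _ _).trans (le_max_right _ _)⟩, ?_⟩
      refine max_lt ?_ (max_lt ?_ ?_) <;> rw [abs_lt] <;> constructor <;> linarith
    have s1 := sum_aux hm.1 hm.2.1 hm.2.2 (by linarith)
    have s2 := sum_aux (x := (1 / 2 - u 0) - (a - w 0)) (y := (1 / 2 - u 1) - (b - w 1))
      (z := (1 / 2 - u 2) - (c - w 2)) (c := 1) (by rw [abs_le]; constructor <;> linarith [hu0.1, hu0.2, hw0.1, hw0.2])
      (by rw [abs_le]; constructor <;> linarith [hu1.1, hu1.2, hw1.1, hw1.2])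
      (by rw [abs_le]; constructor <;> linarith [hu2.1, hu2.2, hw2.1, hw2.2]) (by linarith)
    have t : ∀ s v a' w' : ℝ, |v - w'| ≤ |s - a'| + |(s - v) - (a' - w')| := by
      intro s v a' w'
      have : v - w' = (s - a') - ((s - v) - (a' - w')) := by ring
      rw [this]
      exact abs_sub _ _
    have t0 := t (1 / 2) (u 0) a (w 0)
    have t1 := t (1 / 2) (u 1) b (w 1)
    have t2 := t (1 / 2) (u 2) c (w 2)
    have : u = w := by
      refine h.eq_of hu hw ?_ fun i => ?_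
      · rw [Fin.sum_univ_three]
        linarith
      · have q0 : |(1 / 2 - u 0) - (a - w 0)| ≤ 1 := by
          rw [abs_le]; constructor <;> linarith [hu0.1, hu0.2, hw0.1, hw0.2]
        have q1 : |(1 / 2 - u 1) - (b - w 1)| ≤ 1 := by
          rw [abs_le]; constructor <;> linarith [hu1.1, hu1.2, hw1.1, hw1.2]
        have q2 : |(1 / 2 - u 2) - (c - w 2)| ≤ 1 := by
          rw [abs_le]; constructor <;> linarith [hu2.1, hu2.2, hw2.1, hw2.2]
        fin_cases i
        · show |u 0 - w 0| < 2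
          linarith [hm.1]
        · show |u 1 - w 1| < 2
          linarith [hm.2.1]
        · show |u 2 - w 2| < 2
          linarith [hm.2.2]
    rw [this]
    exact ⟨by linarith [hw0.2], by linarith [hw1.2], by linarith [hw2.2]⟩
  have hge : ∀ x : ℝ, (∀ t : ℝ, 1 / 2 < t → t < 1 → t ≤ x) → 1 ≤ x := by
    intro x hx
    by_contra hlt
    rw [not_le] at hlt
    have h1 := hx (max (3 / 4) ((1 + x) / 2)) (lt_of_lt_of_le (by norm_num) (le_max_left _ _))
      (max_lt (by norm_num) (by linarith))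
    have h2 := (le_max_right (3 / 4) ((1 + x) / 2)).trans h1
    linarith
  have u0 : 1 ≤ u 0 := hge _ fun t h1 h2 =>
    (huniq t ((3 / 2 - t) / 2) ((3 / 2 - t) / 2) (by linarith) h2 (by linarith) (by linarith)
      (by linarith) (by linarith) (by ring)).1
  have u1 : 1 ≤ u 1 := hge _ fun t h1 h2 =>
    (huniq ((3 / 2 - t) / 2) t ((3 / 2 - t) / 2) (by linarith) (by linarith) (by linarith) h2
      (by linarith) (by linarith) (by ring)).2.1
  have u2 : 1 ≤ u 2 := hge _ fun t h1 h2 =>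
    (huniq ((3 / 2 - t) / 2) ((3 / 2 - t) / 2) t (by linarith) (by linarith) (by linarith)
      (by linarith) (by linarith) h2 (by ring)).2.2
  have : u = fun _ => 1 := by
    funext i
    fin_cases i
    · show u 0 = 1
      linarith
    · show u 1 = 1
      linarith
    · show u 2 = 1
      linarith
  rw [← this]
  exact hu

/-- the translations by the vectors of the lattice -/
theorem Hy.trans (h : Hy U) (i j k : ℤ) {u : Fin 3 → ℝ} (hu : u ∈ U) :
    u + (fun l => (![2 * i + k, 2 * j + k, k] : Fin 3 → ℝ) l) ∈ U := by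
  have hsig : ∀ (v : Fin 3 → ℝ), (∀ V : Set (Fin 3 → ℝ), Hy V → v ∈ V) →
      ∀ (n : ℤ) (w : Fin 3 → ℝ), w ∈ U → w + (n : ℝ) • v ∈ U := by
    intro v hv n
    have hneg : ∀ V : Set (Fin 3 → ℝ), Hy V → -v ∈ V := by
      intro V hV
      have h1 := hv _ (hV.sym (Equiv.refl _) (fun _ => -1) (fun _ => by norm_num))
      have h2 : (fun i => (-1 : ℝ) * v ((Equiv.refl (Fin 3)) i)) = -v := by
        funext i
        simp
      exact h2 ▸ h1
    have hp : ∀ w ∈ U, w + v ∈ U := by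
      intro w hw
      have := hv _ (h.shift hw)
      rw [add_comm]
      exact this
    have hn : ∀ w ∈ U, w + -v ∈ U := by
      intro w hw
      have := hneg _ (h.shift hw)
      rw [add_comm]
      exact this
    induction n using Int.induction_on with
    | zero =>
      intro w hw
      simpa using hw
    | succ n ih =>
      intro w hw
      have h1 := hp _ (ih w hw)
      have e : w + ((n : ℤ) : ℝ) • v + v = w + (((n : ℤ) + 1 : ℤ) : ℝ) • v := by
        push_cast
        rw [add_smul, one_smul, add_assoc]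
      rwa [e] at h1
    | pred n ih =>
      intro w hw
      have h1 := hn _ (ih w hw)
      have e : w + ((-(n : ℤ) : ℤ) : ℝ) • v + -v = w + ((-(n : ℤ) - 1 : ℤ) : ℝ) • v := by
        push_cast
        rw [sub_smul, one_smul, add_assoc, sub_eq_add_neg]
      rwa [e] at h1
  have hA : ∀ V : Set (Fin 3 → ℝ), Hy V → (![2, 0, 0] : Fin 3 → ℝ) ∈ V := fun V hV => hV.square
  have hB : ∀ V : Set (Fin 3 → ℝ), Hy V → (![0, 2, 0] : Fin 3 → ℝ) ∈ V := by
    intro V hV
    have h1 := (hV.sym (Equiv.swap 0 1) (fun _ => 1) (fun _ => abs_one)).square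
    have h2 : (fun i => (1 : ℝ) * (![2, 0, 0] : Fin 3 → ℝ) ((Equiv.swap 0 1) i)) =
        ![0, 2, 0] := by
      funext i
      fin_cases i
      · show (1 : ℝ) * (![2, 0, 0] : Fin 3 → ℝ) ((Equiv.swap (0 : Fin 3) 1) 0) = 0
        rw [Equiv.swap_apply_left]
        simp
      · show (1 : ℝ) * (![2, 0, 0] : Fin 3 → ℝ) ((Equiv.swap (0 : Fin 3) 1) 1) = 2
        rw [Equiv.swap_apply_right]
        simp
      · show (1 : ℝ) * (![2, 0, 0] : Fin 3 → ℝ) ((Equiv.swap (0 : Fin 3) 1) 2) = 0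
        rw [Equiv.swap_apply_of_ne_of_ne (by decide) (by decide)]
        simp
    exact h2 ▸ h1
  have hC : ∀ V : Set (Fin 3 → ℝ), Hy V → (fun _ => 1 : Fin 3 → ℝ) ∈ V := fun V hV => hV.hexa
  have h1 := hsig _ hC k _ (hsig _ hB j _ (hsig _ hA i u hu))
  have e : u + (fun l => (![2 * i + k, 2 * j + k, k] : Fin 3 → ℝ) l) =
      u + (i : ℝ) • (![2, 0, 0] : Fin 3 → ℝ) + (j : ℝ) • (![0, 2, 0] : Fin 3 → ℝ) +
        (k : ℝ) • (fun _ => 1 : Fin 3 → ℝ) := by
    funext l
    fin_cases l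
    · show u 0 + (2 * (i : ℝ) + k) = u 0 + (i : ℝ) * 2 + (j : ℝ) * 0 + (k : ℝ) * 1
      ring
    · show u 1 + (2 * (j : ℝ) + k) = u 1 + (i : ℝ) * 0 + (j : ℝ) * 2 + (k : ℝ) * 1
      ring
    · show u 2 + (k : ℝ) = u 2 + (i : ℝ) * 0 + (j : ℝ) * 0 + (k : ℝ) * 1
      ring
  rw [e]
  exact h1

/-- TO -/
theorem t_TO : S_TO := by
  intro U h0 hs hc
  have h : Hy U := by
    refine ⟨h0, fun u hu u' hu' hne => ?_, fun x => ?_⟩
    · rcases hs u hu u' hu' hne with h1 | h1 | h1 | h1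
      · left
        rw [Fin.sum_univ_three]
        exact h1
      · exact Or.inr ⟨0, h1⟩
      · exact Or.inr ⟨1, h1⟩
      · exact Or.inr ⟨2, h1⟩
    · obtain ⟨u, hu, h1, h2, h3, h4⟩ := hc x
      refine ⟨u, hu, ?_, fun i => ?_⟩
      · rw [Fin.sum_univ_three]
        exact h1
      · fin_cases i
        · exact h2
        · exact h3
        · exact h4
  intro u
  constructor
  · intro hu
    obtain ⟨k, hk⟩ : ∃ k : ℤ, |u 2 - k| ≤ 1 / 2 := ⟨round (u 2), abs_sub_round _⟩
    obtain ⟨i, hi⟩ : ∃ i : ℤ, |(u 0 - k) / 2 - i| ≤ 1 / 2 := ⟨round ((u 0 - k) / 2), abs_sub_round _⟩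
    obtain ⟨j, hj⟩ : ∃ j : ℤ, |(u 1 - k) / 2 - j| ≤ 1 / 2 := ⟨round ((u 1 - k) / 2), abs_sub_round _⟩
    have hw := h.trans i j k h.zero
    rw [zero_add] at hw
    rw [abs_le] at hk hi hj
    have e0 : |u 0 - (2 * i + k)| ≤ 1 := by rw [abs_le]; constructor <;> linarith [hi.1, hi.2]
    have e1 : |u 1 - (2 * j + k)| ≤ 1 := by rw [abs_le]; constructor <;> linarith [hj.1, hj.2]
    have e2 : |u 2 - k| ≤ 1 / 2 := abs_le.2 hk
    have : u = fun l => (![2 * (i : ℝ) + k, 2 * j + k, k] : Fin 3 → ℝ) l := by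
      refine h.eq_of hu hw ?_ fun l => ?_
      · rw [Fin.sum_univ_three]
        show |u 0 - (2 * i + k)| + |u 1 - (2 * j + k)| + |u 2 - k| < 3
        linarith
      · fin_cases l
        · show |u 0 - (2 * i + k)| < 2
          linarith
        · show |u 1 - (2 * j + k)| < 2
          linarith
        · show |u 2 - k| < 2
          linarith
    refine ⟨i, j, k, ?_, ?_, ?_⟩
    · exact congrFun this 0
    · exact congrFun this 1
    · exact congrFun this 2
  · rintro ⟨i, j, k, h1, h2, h3⟩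
    have hw := h.trans i j k h.zero
    rw [zero_add] at hw
    have : u = fun l => (![2 * (i : ℝ) + k, 2 * j + k, k] : Fin 3 → ℝ) l := by
      funext l
      fin_cases l
      · exact h1
      · exact h2
      · exact h3
    rw [this]
    exact hw

end Pool.Agent.K3h55.R5
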